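import Pool.Agent.Lib.MP_d32f96_gt.Own

namespace Pool.Agent.Results.MP_d32f96_gt.Connected

noncomputable section

/-- The homeomorphisms of the plane (identified with the complex numbers). -/
def Homeo : Type := ℂ ≃ₜ ℂ

/-- The group law is composition. -/
instance grp : Group Homeo := Homeomorph.instGroup

/-- The underlying continuous map. -/
def Homeo.map (f : Homeo) : C(ℂ, ℂ) := ⟨(show ℂ ≃ₜ ℂ from f), (show ℂ ≃ₜ ℂ from f).continuous⟩

/-- The compact-open topology. -/
instance top : TopologicalSpace Homeo := TopologicalSpace.induced Homeo.map inferInstance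

/-- The commuting pair `(f, g)` has Euler number `k`: for paths `A`, `B` from the identity to `f`,
`g`, the loop of commutators `c t = [A t, B t]` has class `k` in the fundamental group, read as
the winding number of `c t 1 - c t 0`. -/
def HasEuler (f g : Homeo) (k : ℤ) : Prop :=
  ∃ A B : ℝ → Homeo, Continuous A ∧ Continuous B ∧ A 0 = 1 ∧ B 0 = 1 ∧ A 1 = f ∧ B 1 = g ∧
    ∃ θ : ℝ → ℝ, Continuous θ ∧ θ 1 - θ 0 = k ∧ ∀ t ∈ Set.Icc (0 : ℝ) 1,
      (A t * B t * (A t)⁻¹ * (B t)⁻¹).map 1 - (A t * B t * (A t)⁻¹ * (B t)⁻¹).map 0 =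
        ((‖(A t * B t * (A t)⁻¹ * (B t)⁻¹).map 1 - (A t * B t * (A t)⁻¹ * (B t)⁻¹).map 0‖ : ℝ) : ℂ) *
          Complex.exp (2 * (Real.pi : ℂ) * Complex.I * ((θ t : ℝ) : ℂ))

theorem result : ∀ k : ℤ, IsConnected {p : Homeo × Homeo |
    p.1 ∈ connectedComponent (1 : Homeo) ∧ p.2 ∈ connectedComponent (1 : Homeo) ∧
      p.1 * p.2 = p.2 * p.1 ∧ HasEuler p.1 p.2 k} :=
  fun k => Pool.Agent.Lib.MP_d32f96_gt.own_connected k

end

end Pool.Agent.Results.MP_d32f96_gt.Connected
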